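import Mathlib
import Pool.Agent.H741Z.NConjFour

set_option autoImplicit false

/-- For even `n ≥ 4` there are arbitrarily large admissible `n`-tuples, without vanishing proper
subsums, of quality above any `M < 7/6` (`n = 4`), resp. any `M < 7/5` (`n ≥ 6`). -/
theorem Pool.Agent.Results.MP_7ecdd4_nt.AEvenQuality.result :
    ∀ n : ℕ, 4 ≤ n → Even n → ∀ M : ℝ, M < (if n = 4 then 7 / 6 else 7 / 5) → ∀ B : ℕ,
      ∃ x : Fin n → ℤ, (∀ i, x i ≠ 0) ∧ (∀ i j, i ≠ j → Int.gcd (x i) (x j) = 1) ∧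
        ∑ i, x i = 0 ∧
        (∀ b : Fin n → ℤ, (∀ i, |b i| ≤ 1) → ∑ i, b i * x i = 0 → ∀ i j, b i = b j) ∧
        ∃ j, (B : ℤ) < |x j| ∧
          (((∏ i, x i).natAbs.primeFactors.prod id : ℕ) : ℝ) ^ M < |((x j : ℤ) : ℝ)| := by
  intro n hn he M hM B
  by_cases h : n = 4
  · subst h
    exact Pool.Agent.H741Z.NConj.main4 M (by simpa using hM) B
  · rw [if_neg h] at hM
    exact Pool.Agent.H741Z.NConj.main n (by obtain ⟨a, ha⟩ := he; omega) he M hM B
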